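import Pool.Agent.H83.TU.Base

/-!
# [H43 AS Wd] ABUNDANCE (MP_e49dc9_ag): the rank over `k(ζ)` of the sections of a divisor (LB) + (UB0)

`X : Mod k K`, `s t` sections of `G` without common zeros in codimension one (`Cop`), `ζ = s / t` transcendental over `k`,
`F = k(ζ)` (`IntermediateField.adjoin k {ζ}`).  Then, for every Cartier divisor `V` with finite dimensional spaces of sections
of `V` and `V - G`,

`dim_F (F-span of L(V)) = h0(V) - h0(V - G)`   (`wd`).

PROOF.  (`clear`) every nonzero family of elements of `F` is, up to a factor, a family `p_i(ζ)` of polynomials, not all divisible by `X`.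
(UB0, `wd_le`) With bases `f_i` of `L(V)` and `h_j` of `L(V - G)`, `s h_j = ∑ a_ij f_i`, `t h_j = ∑ b_ij f_i`, the vectors
`(a_ij - ζ b_ij)_i` are relations between the `f_i` and they are independent over `F` (put `ζ = 0`).
(LB, `wd_ge`) A basis of a complement of `s L(V - G)` in `L(V)` is independent over `F`: if `∑ p_i(ζ) f_i = 0`, `p_i = p_i(0) + X q_i`,
then `g = ∑ p_i(0) f_i` satisfies `g / s = - (∑ q_i(ζ) f_i) / t`, so `(s G) (g / s) V / G` and `(t G) ^ (N + 1) (g / s) V / G` are
in `O_x`, and `g / s ∈ L(V - G)`.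
-/

set_option autoImplicit false

namespace Pool.Agent.H43.AS

open Pool.Agent.H54.RV Pool.Agent.H83.TU Polynomial

variable {k K : Type} [Field k] [Field K] [Algebra k K] {M : Mod k K}

/-- the sections `s` and `t` of `G` have no common zeros in codimension one -/
def Cop (G : Cart M) (s t : K) : Prop :=
  ∀ x a, a * (s * G.eq x) ∈ M.O x → a * (t * G.eq x) ∈ M.O x → a ∈ M.O x

theorem Cop.pow_right {G : Cart M} {s t : K} (h : Cop G s t) (ht : Sec G 1 t) (n : ℕ) (x : M.P) (a : K)
    (h1 : a * (s * G.eq x) ∈ M.O x) (h2 : a * (t * G.eq x) ^ n ∈ M.O x) : a ∈ M.O x := by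
  induction n with
  | zero => simpa using h2
  | succ n ih =>
    have ht' : t * G.eq x ∈ M.O x := by simpa using ht x
    refine ih (h x _ ?_ ?_)
    · have : a * (t * G.eq x) ^ n * (s * G.eq x) = a * (s * G.eq x) * (t * G.eq x) ^ n := by ring
      rw [this]
      exact (M.O x).mul_mem h1 ((M.O x).pow_mem ht' n)
    · rw [mul_assoc, ← pow_succ]
      exact h2

/-- a nonzero family in `k(ζ)` is up to a factor a family of polynomials in `ζ`, not all divisible by `X` -/
theorem clear {ζ : K} {ι : Type} [Fintype ι] (α : ι → IntermediateField.adjoin k {ζ})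
    (hα : α ≠ 0) (hζ : Transcendental k ζ) :
    ∃ (c : IntermediateField.adjoin k {ζ}) (p : ι → k[X]), c ≠ 0 ∧ (∀ i, ((c * α i : IntermediateField.adjoin k {ζ}) : K) = aeval ζ (p i)) ∧
      ∃ i, (p i).coeff 0 ≠ 0 := by
  classical
  have hζ0 : ζ ≠ 0 := by
    rintro rfl
    exact hζ isAlgebraic_zero
  -- a first family
  have h0 : ∃ (c : IntermediateField.adjoin k {ζ}) (p : ι → k[X]), c ≠ 0 ∧
      (∀ i, ((c * α i : IntermediateField.adjoin k {ζ}) : K) = aeval ζ (p i)) := by
    have h1 : ∀ i, ∃ r s : k[X], aeval ζ s ≠ 0 ∧ (α i : K) * aeval ζ s = aeval ζ r := by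
      intro i
      obtain ⟨r, s, hrs⟩ := (IntermediateField.mem_adjoin_simple_iff k _).1 (α i).2
      by_cases hs : aeval ζ s = 0
      · refine ⟨0, 1, by simp, ?_⟩
        rw [hrs, hs]
        simp
      · exact ⟨r, s, hs, by rw [hrs, div_mul_cancel₀ _ hs]⟩
    choose r s hs hrs using h1
    have hmem : ∀ q : k[X], aeval ζ q ∈ IntermediateField.adjoin k {ζ} := fun q =>
      (IntermediateField.mem_adjoin_simple_iff k _).2 ⟨q, 1, by simp⟩
    refine ⟨⟨aeval ζ (∏ i, s i), hmem _⟩, fun i => r i * ∏ j ∈ Finset.univ.erase i, s j, ?_, ?_⟩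
    · intro h
      have h2 := congrArg Subtype.val h
      change aeval ζ (∏ i, s i) = 0 at h2
      rw [map_prod, Finset.prod_eq_zero_iff] at h2
      obtain ⟨i, -, hi⟩ := h2
      exact hs i hi
    · intro i
      change aeval ζ (∏ i, s i) * (α i : K) = _
      rw [← Finset.mul_prod_erase Finset.univ s (Finset.mem_univ i), map_mul, map_mul, ← hrs i]
      ring
  -- a minimal family
  have hP : ∃ n : ℕ, ∃ (c : IntermediateField.adjoin k {ζ}) (p : ι → k[X]), c ≠ 0 ∧
      (∀ i, ((c * α i : IntermediateField.adjoin k {ζ}) : K) = aeval ζ (p i)) ∧ ∑ i, (p i).natDegree = n := by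
    obtain ⟨c, p, hc, hp⟩ := h0
    exact ⟨_, c, p, hc, hp, rfl⟩
  obtain ⟨c, p, hc, hp, hn⟩ := Nat.find_spec hP
  refine ⟨c, p, hc, hp, ?_⟩
  by_contra hcon
  push Not at hcon
  have hdiv : ∀ i, ∃ q : k[X], p i = X * q := fun i => X_dvd_iff.2 (hcon i)
  choose q hq using hdiv
  have hζm : ζ ∈ IntermediateField.adjoin k {ζ} := IntermediateField.mem_adjoin_simple_self k ζ
  obtain ⟨z, hz⟩ : ∃ z : IntermediateField.adjoin k {ζ}, (z : K) = ζ := ⟨⟨ζ, hζm⟩, rfl⟩
  have hz0 : z ≠ 0 := by
    rintro rfl
    exact hζ0 hz.symm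
  obtain ⟨i0, hi0⟩ := Function.ne_iff.1 hα
  have hpi0 : p i0 ≠ 0 := by
    intro h
    have h3 := hp i0
    rw [h, map_zero] at h3
    have h4 : c * α i0 = 0 := Subtype.ext h3
    exact (mul_ne_zero hc hi0) h4
  have hlt : ∑ i, (q i).natDegree < Nat.find hP := by
    rw [← hn]
    refine Finset.sum_lt_sum (fun i _ => ?_) ⟨i0, Finset.mem_univ _, ?_⟩
    · rw [hq i]
      by_cases h : q i = 0
      · rw [h]; simp
      · rw [natDegree_X_mul h]; omega
    · have h : q i0 ≠ 0 := by
        rintro h
        exact hpi0 (by rw [hq i0, h, mul_zero])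
      rw [hq i0, natDegree_X_mul h]
      omega
  refine Nat.find_min hP hlt ⟨c * z⁻¹, q, mul_ne_zero hc (inv_ne_zero hz0), fun i => ?_, rfl⟩
  have h5 : ((c * z⁻¹ * α i : IntermediateField.adjoin k {ζ}) : K) = ζ⁻¹ * ((c * α i : IntermediateField.adjoin k {ζ}) : K) := by
    have h6 : ((z⁻¹ : IntermediateField.adjoin k {ζ}) : K) = ζ⁻¹ := congrArg (fun y : K => y⁻¹) hz
    change (c : K) * ((z⁻¹ : IntermediateField.adjoin k {ζ}) : K) * (α i : K) = ζ⁻¹ * ((c : K) * (α i : K))
    rw [h6]
    ring
  rw [h5, hp i, hq i, map_mul, aeval_X, inv_mul_cancel_left₀ hζ0]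

/-- a family independent modulo `S` -/
theorem exists_compl_fam {E : Type*} [AddCommGroup E] [Module k E] (L S : Submodule k E) [Module.Finite k L] [Module.Finite k S] :
    ∃ (m : ℕ) (f : Fin m → E), (∀ i, f i ∈ L) ∧ Module.finrank k L ≤ m + Module.finrank k S ∧
      ∀ c : Fin m → k, ∑ i, c i • f i ∈ S → c = 0 := by
  obtain ⟨C, hC⟩ := Submodule.exists_isCompl (S.comap L.subtype)
  have hd : Module.finrank k (S.comap L.subtype) + Module.finrank k C = Module.finrank k L :=
    Submodule.finrank_add_eq_of_isCompl hC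
  have hS : Module.finrank k (S.comap L.subtype) ≤ Module.finrank k S := by
    have h1 : Module.finrank k (S.comap L.subtype) = Module.finrank k ((S.comap L.subtype).map L.subtype) :=
      (Submodule.equivMapOfInjective _ (Submodule.subtype_injective _) (S.comap L.subtype)).finrank_eq
    rw [h1]
    exact Submodule.finrank_mono (Submodule.map_comap_le _ _)
  let f := Module.finBasis k C
  refine ⟨Module.finrank k C, fun i => ((f i : L) : E), fun i => (f i : L).2, by omega, fun c hc => ?_⟩
  have h1 : (((∑ i, c i • f i : C) : L) : E) = ∑ i, c i • ((f i : L) : E) := by simp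
  rw [← h1] at hc
  have h2 : ((∑ i, c i • f i : C) : L) ∈ S.comap L.subtype ⊓ C := ⟨hc, (∑ i, c i • f i : C).2⟩
  have h3 : ((∑ i, c i • f i : C) : L) = 0 := by simpa using hC.disjoint.le_bot h2
  have h4 : (∑ i, c i • f i : C) = 0 := Subtype.ext h3
  exact funext fun i => Fintype.linearIndependent_iff.1 f.linearIndependent c h4 i

theorem rep {E ι : Type*} [Fintype ι] [AddCommGroup E] [Module k E] (L : Submodule k E) (f : Module.Basis ι k L) {a : E} (ha : a ∈ L) :
    a = ∑ i, f.repr ⟨a, ha⟩ i • (f i : E) := by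
  have h1 := congrArg L.subtype (f.sum_repr ⟨a, ha⟩)
  rw [map_sum] at h1
  simp only [map_smul, Submodule.subtype_apply] at h1
  exact h1.symm

variable (V G : Cart M)

/-- a product of sections -/
theorem sec_mul_sub {V G : Cart M} {s a : K} (hs : Sec G 1 s) (ha : Sec (V * G⁻¹) 1 a) : Sec V 1 (s * a) := fun x => by
  have h1 := (M.O x).mul_mem (hs x) (ha x)
  have h2 : s * G.eq x ^ 1 * (a * (V * G⁻¹).eq x ^ 1) = s * a * V.eq x ^ 1 := by
    have h3 : (V * G⁻¹).eq x = V.eq x * (G.eq x)⁻¹ := rfl
    rw [h3]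
    have := G.ne x
    field_simp
  rwa [h2] at h1

/-- (UB0) -/
theorem wd_le {s t : K} (hs : Sec G 1 s) (ht : Sec G 1 t) (hs0 : s ≠ 0) (ht0 : t ≠ 0) (hζ : Transcendental k (s / t))
    [Module.Finite k (secL V 1)] [Module.Finite k (secL (V * G⁻¹) 1)] :
    Module.finrank (IntermediateField.adjoin k {s / t}) (Submodule.span (IntermediateField.adjoin k {s / t}) (secL V 1 : Set K)) +
      h0 (V * G⁻¹) 1 ≤ h0 V 1 := by
  classical
  set F := IntermediateField.adjoin k {s / t} with hF
  let f := Module.finBasis k (secL V 1)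
  let g := Module.finBasis k (secL (V * G⁻¹) 1)
  set m := Module.finrank k (secL V 1) with hm
  set q := Module.finrank k (secL (V * G⁻¹) 1) with hq
  obtain ⟨z, hz⟩ : ∃ z : F, (z : K) = s / t := ⟨⟨s / t, IntermediateField.mem_adjoin_simple_self k _⟩, rfl⟩
  let Φ : (Fin m → F) →ₗ[F] K := Fintype.linearCombination F (fun i => ((f i : secL V 1) : K))
  have hΦ : ∀ α, Φ α = ∑ i, (α i : K) * (f i : K) := fun α => by
    rw [Fintype.linearCombination_apply]
    rfl
  have hr : LinearMap.range Φ = Submodule.span F (secL V 1 : Set K) := by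
    rw [Fintype.range_linearCombination]
    apply le_antisymm
    · refine Submodule.span_mono ?_
      rintro _ ⟨i, rfl⟩
      exact (f i).2
    · refine Submodule.span_le.2 ?_
      intro a ha
      have h1 : (a : K) = ∑ i, f.repr ⟨a, ha⟩ i • (f i : K) := rep _ f ha
      rw [h1]
      refine Submodule.sum_mem _ fun i _ => ?_
      have h2 : f.repr ⟨a, ha⟩ i • (f i : K) = (algebraMap k F (f.repr ⟨a, ha⟩ i)) • (f i : K) := by
        rw [algebraMap_smul]
      rw [h2]
      exact Submodule.smul_mem _ _ (Submodule.subset_span ⟨i, rfl⟩)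
  have hA : ∀ {r : K} (hr : Sec G 1 r) (j : Fin q), ∃ a : Fin m → k, r * (g j : K) = ∑ i, a i • (f i : K) := by
    intro r hr j
    have h1 : r * (g j : K) ∈ secL V 1 := sec_mul_sub hr (g j).2
    exact ⟨fun i => f.repr ⟨_, h1⟩ i, rep _ f h1⟩
  choose a ha using fun j => hA hs j
  choose b hb using fun j => hA ht j
  let κ : Fin q → (Fin m → F) := fun j i => algebraMap k F (a j i) - z * algebraMap k F (b j i)
  have hκ : ∀ j, κ j ∈ LinearMap.ker Φ := by
    intro j
    rw [LinearMap.mem_ker, hΦ]
    have h1 : ∀ i, ((κ j i : F) : K) * (f i : K) = a j i • (f i : K) - (s / t) * (b j i • (f i : K)) := by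
      intro i
      change (((algebraMap k F (a j i) : F) : K) - (z : K) * ((algebraMap k F (b j i) : F) : K)) * (f i : K) = _
      rw [hz, Algebra.smul_def, Algebra.smul_def]
      change ((algebraMap k K (a j i)) - (s / t) * (algebraMap k K (b j i))) * (f i : K) = _
      ring
    rw [Finset.sum_congr rfl fun i _ => h1 i, Finset.sum_sub_distrib, ← Finset.mul_sum, ← ha j, ← hb j]
    field_simp
    ring
  have hli : LinearIndependent F κ := by
    rw [Fintype.linearIndependent_iff]
    by_contra hcon
    push Not at hcon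
    obtain ⟨α, hα, j0, hj0⟩ := hcon
    have hα0 : α ≠ 0 := fun h => hj0 (by rw [h]; rfl)
    obtain ⟨c, p, hc, hp, j1, hj1⟩ := clear α hα0 hζ
    -- the relation in polynomials
    have hrel : ∀ i, ∑ j, (p j * (C (a j i) - X * C (b j i))) = 0 := by
      intro i
      have h1 := congrFun hα i
      rw [Finset.sum_apply] at h1
      have h2 : ∑ j, c * α j * κ j i = 0 := by
        have h3 : ∑ j, c * α j * κ j i = c * ∑ j, (α j • κ j) i := by
          rw [Finset.mul_sum]
          refine Finset.sum_congr rfl fun j _ => ?_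
          rw [Pi.smul_apply, smul_eq_mul, mul_assoc]
        rw [h3, h1, Pi.zero_apply, mul_zero]
      have h4 : aeval (s / t) (∑ j, (p j * (C (a j i) - X * C (b j i)))) = 0 := by
        rw [map_sum]
        have h5 : ∀ j, aeval (s / t) (p j * (C (a j i) - X * C (b j i))) = ((c * α j * κ j i : F) : K) := by
          intro j
          have h10 : ((κ j i : F) : K) = algebraMap k K (a j i) - (s / t) * algebraMap k K (b j i) := by
            change ((algebraMap k F (a j i) : F) : K) - (z : K) * ((algebraMap k F (b j i) : F) : K) = _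
            rw [hz]
            rfl
          rw [map_mul, map_sub, map_mul, aeval_C, aeval_C, aeval_X, ← hp j, ← h10]
          rfl
        rw [Finset.sum_congr rfl fun j _ => h5 j]
        have h6 := congrArg (Subtype.val : F → K) h2
        have h8 : ((∑ j, c * α j * κ j i : F) : K) = ∑ j, ((c * α j * κ j i : F) : K) := by
          exact map_sum (algebraMap F K) _ _
        rw [← h8]
        exact h6
      by_contra h7
      exact hζ ⟨_, h7, h4⟩
    have h0 : ∀ i, ∑ j, (p j).coeff 0 * a j i = 0 := by
      intro i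
      have h1 := congrArg (fun P : k[X] => P.eval 0) (hrel i)
      simp only [eval_finsetSum, eval_mul, eval_sub, eval_C, eval_X, zero_mul, sub_zero, eval_zero] at h1
      rw [← h1]
      refine Finset.sum_congr rfl fun j _ => ?_
      rw [coeff_zero_eq_eval_zero]
    have h1 : s * ∑ j, (p j).coeff 0 • (g j : K) = 0 := by
      rw [Finset.mul_sum]
      have h2 : ∀ j, s * ((p j).coeff 0 • (g j : K)) = ∑ i, ((p j).coeff 0 * a j i) • (f i : K) := by
        intro j
        rw [mul_smul_comm, ha j, Finset.smul_sum]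
        refine Finset.sum_congr rfl fun i _ => ?_
        rw [smul_smul]
      rw [Finset.sum_congr rfl fun j _ => h2 j, Finset.sum_comm]
      refine Finset.sum_eq_zero fun i _ => ?_
      rw [← Finset.sum_smul, h0 i, zero_smul]
    have h2 : ∑ j, (p j).coeff 0 • g j = 0 := by
      apply Subtype.ext
      have := (mul_eq_zero.1 h1).resolve_left hs0
      rw [← ZeroMemClass.coe_zero (secL (V * G⁻¹) 1)] at this
      rw [← this]
      simp
    exact hj1 (Fintype.linearIndependent_iff.1 g.linearIndependent (fun j => (p j).coeff 0) h2 j1)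
  have hker : q ≤ Module.finrank F (LinearMap.ker Φ) := by
    have h1 : LinearIndependent F (fun j => (⟨κ j, hκ j⟩ : LinearMap.ker Φ)) := by
      refine LinearIndependent.of_comp (LinearMap.ker Φ).subtype ?_
      exact hli
    simpa using h1.fintype_card_le_finrank
  have hsum := LinearMap.finrank_range_add_finrank_ker Φ
  rw [Module.finrank_fin_fun, hr] at hsum
  change _ + q ≤ m
  omega

/-- (LB) -/
theorem wd_ge {s t : K} (hs : Sec G 1 s) (ht : Sec G 1 t) (hs0 : s ≠ 0) (ht0 : t ≠ 0) (hζ : Transcendental k (s / t))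
    (hc : Cop G s t) [Module.Finite k (secL V 1)] [Module.Finite k (secL (V * G⁻¹) 1)] :
    h0 V 1 ≤ Module.finrank (IntermediateField.adjoin k {s / t})
      (Submodule.span (IntermediateField.adjoin k {s / t}) (secL V 1 : Set K)) + h0 (V * G⁻¹) 1 := by
  classical
  set F := IntermediateField.adjoin k {s / t} with hF
  obtain ⟨m, f, hfL, hm, hfS⟩ := exists_compl_fam (secL V 1) ((secL (V * G⁻¹) 1).map (LinearMap.mulLeft k s))
  have hS : Module.finrank k ((secL (V * G⁻¹) 1).map (LinearMap.mulLeft k s)) ≤ h0 (V * G⁻¹) 1 := Submodule.finrank_map_le _ _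
  have hli : LinearIndependent F f := by
    rw [Fintype.linearIndependent_iff]
    by_contra hcon
    push Not at hcon
    obtain ⟨α, hα, j0, hj0⟩ := hcon
    have hα0 : α ≠ 0 := fun h => hj0 (by rw [h]; rfl)
    obtain ⟨c, p, hc', hp, j1, hj1⟩ := clear α hα0 hζ
    have hrel : ∑ i, aeval (s / t) (p i) * f i = 0 := by
      have h1 : ∀ i, aeval (s / t) (p i) * f i = (c : K) * (α i • f i) := by
        intro i
        rw [← hp i]
        change (c : K) * (α i : K) * _ = (c : K) * ((α i : K) * _)
        ring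
      rw [Finset.sum_congr rfl fun i _ => h1 i, ← Finset.mul_sum, hα, mul_zero]
    obtain ⟨y, hy⟩ : ∃ y : K, y = ∑ i, (p i).coeff 0 • f i := ⟨_, rfl⟩
    have hyK : y = ∑ i, algebraMap k K ((p i).coeff 0) * f i := by
      rw [hy]
      exact Finset.sum_congr rfl fun i _ => Algebra.smul_def _ _
    have hyV : y ∈ secL V 1 := by
      rw [hy]
      exact Submodule.sum_mem _ fun i _ => Submodule.smul_mem _ _ (hfL i)
    have hdiv : ∀ i, aeval (s / t) (p i) = algebraMap k K ((p i).coeff 0) + (s / t) * aeval (s / t) (divX (p i)) := by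
      intro i
      conv_lhs => rw [← divX_mul_X_add (p i)]
      rw [map_add, map_mul, aeval_X, aeval_C]
      ring
    have hyr : y = - ((s / t) * ∑ i, aeval (s / t) (divX (p i)) * f i) := by
      have h1 : ∑ i, aeval (s / t) (p i) * f i = y +
          (s / t) * ∑ i, aeval (s / t) (divX (p i)) * f i := by
        rw [hyK, Finset.mul_sum, ← Finset.sum_add_distrib]
        refine Finset.sum_congr rfl fun i _ => ?_
        rw [hdiv i]
        ring
      rw [h1] at hrel
      linear_combination hrel
    -- y / s is a section of V - G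
    have hsec : Sec (V * G⁻¹) 1 (y / s) := by
      intro x
      have hV : (V * G⁻¹).eq x = V.eq x * (G.eq x)⁻¹ := rfl
      have hG := G.ne x
      rw [pow_one, hV]
      have hsx : s * G.eq x ∈ M.O x := by simpa using hs x
      have htx : t * G.eq x ∈ M.O x := by simpa using ht x
      obtain ⟨N, hN⟩ : ∃ N, ∀ i, (divX (p i)).natDegree ≤ N := ⟨Finset.univ.sup fun i => (divX (p i)).natDegree,
        fun i => Finset.le_sup (f := fun i => (divX (p i)).natDegree) (Finset.mem_univ i)⟩
      have hq : ∀ i, (t * G.eq x) ^ N * aeval (s / t) (divX (p i)) ∈ M.O x := by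
        intro i
        rw [aeval_eq_sum_range, Finset.mul_sum]
        refine Subalgebra.sum_mem _ fun j hj => ?_
        have hj' : j ≤ N := (Nat.lt_succ_iff.1 (Finset.mem_range.1 hj)).trans (hN i)
        have h1 : (t * G.eq x) ^ N * ((divX (p i)).coeff j • (s / t) ^ j) =
            (divX (p i)).coeff j • ((s * G.eq x) ^ j * (t * G.eq x) ^ (N - j)) := by
          obtain ⟨e, rfl⟩ := Nat.exists_eq_add_of_le hj'
          rw [Nat.add_sub_cancel_left, mul_smul_comm, pow_add, div_pow, mul_pow, mul_pow]
          congr 1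
          field_simp
          ring
        rw [h1]
        exact (M.O x).smul_mem ((M.O x).mul_mem ((M.O x).pow_mem hsx _) ((M.O x).pow_mem htx _)) _
      refine hc.pow_right ht (N + 1) x _ ?_ ?_
      · have h1 : y / s * (V.eq x * (G.eq x)⁻¹) * (s * G.eq x) = y * V.eq x := by
          field_simp
        rw [h1]
        simpa using hyV x
      · have h1 : y / s * (V.eq x * (G.eq x)⁻¹) * (t * G.eq x) ^ (N + 1) =
            - ∑ i, (t * G.eq x) ^ N * aeval (s / t) (divX (p i)) * (f i * V.eq x) := by
          have h2 : y / s = - (1 / t * ∑ i, aeval (s / t) (divX (p i)) * f i) := by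
            rw [hyr]
            field_simp
          have h3 : ∑ i, (t * G.eq x) ^ N * aeval (s / t) (divX (p i)) * (f i * V.eq x) =
              (t * G.eq x) ^ N * V.eq x * ∑ i, aeval (s / t) (divX (p i)) * f i := by
            rw [Finset.mul_sum]
            refine Finset.sum_congr rfl fun i _ => ?_
            ring
          rw [h2, h3, pow_succ]
          field_simp
        rw [h1]
        refine (M.O x).neg_mem (Subalgebra.sum_mem _ fun i _ => (M.O x).mul_mem (hq i) ?_)
        simpa using hfL i x
    have hyS : y ∈ (secL (V * G⁻¹) 1).map (LinearMap.mulLeft k s) := by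
      refine ⟨y / s, hsec, ?_⟩
      rw [LinearMap.mulLeft_apply, mul_div_cancel₀ _ hs0]
    rw [hy] at hyS
    exact hj1 (congrFun (hfS (fun i => (p i).coeff 0) hyS) j1)
  have hW : m ≤ Module.finrank F (Submodule.span F (secL V 1 : Set K)) := by
    have : Module.Finite F (Submodule.span F (secL V 1 : Set K)) := by
      obtain ⟨T, hT⟩ := (inferInstance : Module.Finite k (secL V 1)).fg_top
      refine Module.Finite.iff_fg.2 ⟨T.image Subtype.val, ?_⟩
      apply le_antisymm
      · refine Submodule.span_mono ?_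
        intro a ha
        obtain ⟨b, -, rfl⟩ := Finset.mem_image.1 ha
        exact b.2
      · refine Submodule.span_le.2 fun a ha => ?_
        have h1 : (⟨a, ha⟩ : secL V 1) ∈ Submodule.span k (T : Set (secL V 1)) := by rw [hT]; trivial
        have h2 : a ∈ Submodule.span k ((secL V 1).subtype '' (T : Set (secL V 1))) := by
          rw [← Submodule.map_span]
          exact ⟨_, h1, rfl⟩
        have h3 : ((secL V 1).subtype '' (T : Set (secL V 1))) = ((T.image Subtype.val : Finset K) : Set K) := by
          rw [Finset.coe_image]; rfl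
        rw [h3] at h2
        exact Submodule.span_le_restrictScalars k F _ h2
    have h1 : LinearIndependent F (fun i => (⟨f i, Submodule.subset_span (hfL i)⟩ :
        Submodule.span F (secL V 1 : Set K))) := by
      refine LinearIndependent.of_comp (Submodule.span F (secL V 1 : Set K)).subtype ?_
      exact hli
    simpa using h1.fintype_card_le_finrank
  have h9 : h0 V 1 = Module.finrank k (secL V 1) := rfl
  omega

theorem wd {s t : K} (hs : Sec G 1 s) (ht : Sec G 1 t) (hs0 : s ≠ 0) (ht0 : t ≠ 0) (hζ : Transcendental k (s / t))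
    (hc : Cop G s t) [Module.Finite k (secL V 1)] [Module.Finite k (secL (V * G⁻¹) 1)] :
    Module.finrank (IntermediateField.adjoin k {s / t}) (Submodule.span (IntermediateField.adjoin k {s / t}) (secL V 1 : Set K)) +
      h0 (V * G⁻¹) 1 = h0 V 1 :=
  le_antisymm (wd_le V G hs ht hs0 ht0 hζ) (wd_ge V G hs ht hs0 ht0 hζ hc)

end Pool.Agent.H43.AS
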