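import Pool.Agent.H43.AS.Nm
import Pool.Agent.H4.YB.Ub
import Pool.Agent.H47.YP.Tor

/-!
# [H43 AS AsX] ABUNDANCE (MP_e49dc9_ag): (AS) on `Y` from the data on `X`

`wd_lb`, `wd_ub`: the rank over `k(s / t)` in the form of the hypotheses `hwd` of `lb` and of `H4.YB.ub`.
`as_X`: (AS) with a torsion twist, `H47.YP.asy_tw` with the numbers of `X`.
-/

set_option autoImplicit false

namespace Pool.Agent.H43.AS

open Pool.Agent.H54.RV Pool.Agent.H83.TU Pool.Agent.H83.TK Pool.Agent.H24.TK Pool.Agent.H24.VP Pool.Agent.H4.YB Pool.Agent.H41.TK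
  Pool.Agent.H47.YP

variable {k K : Type} [Field k] [Field K] [Algebra k K] {X : Mod k K} {F : IntermediateField k K} {Y : Mod F K}
  {π : Y.P → X.P} {ψ : Cart X →* Cart Y}

theorem wd_lb [CharZero k] (hX : IsVar X) (hg : ∃ g, Gen X g) (hA : ∃ A : Cart X, Ample A) {G : Cart X} {s t : K}
    (hs : Sec G 1 s) (ht : Sec G 1 t) (hs0 : s ≠ 0) (ht0 : t ≠ 0) (hζ : Transcendental k (s / t)) (hc : Cop G s t) (W : Cart X) :
    (h0 W 1 : ℝ) - h0 (W * G⁻¹) 1 ≤
      Module.finrank (IntermediateField.adjoin k {s / t}) (Submodule.span (IntermediateField.adjoin k {s / t}) (secL W 1 : Set K)) := by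
  obtain ⟨A, hA⟩ := hA
  have : Module.Finite k (secL W 1) := fd hX hg hA W
  have : Module.Finite k (secL (W * G⁻¹) 1) := fd hX hg hA _
  have h1 := wd_ge W G hs ht hs0 ht0 hζ hc
  have h2 : (h0 W 1 : ℝ) ≤ ((Module.finrank (IntermediateField.adjoin k {s / t}) (Submodule.span (IntermediateField.adjoin k {s / t})
    (secL W 1 : Set K)) + h0 (W * G⁻¹) 1 : ℕ) : ℝ) := by exact_mod_cast h1
  push_cast at h2
  linarith

theorem wd_ub [CharZero k] (hX : IsVar X) (hg : ∃ g, Gen X g) (hA : ∃ A : Cart X, Ample A) {G : Cart X} {s t : K}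
    (hs : Sec G 1 s) (ht : Sec G 1 t) (hs0 : s ≠ 0) (ht0 : t ≠ 0) (hζ : Transcendental k (s / t)) (W : Cart X) :
    (Module.finrank (IntermediateField.adjoin k {s / t}) (Submodule.span (IntermediateField.adjoin k {s / t}) (secL W 1 : Set K)) : ℝ)
      ≤ (h0 W 1 : ℝ) - h0 (W * G⁻¹) 1 := by
  obtain ⟨A, hA⟩ := hA
  have : Module.Finite k (secL W 1) := fd hX hg hA W
  have : Module.Finite k (secL (W * G⁻¹) 1) := fd hX hg hA _
  have h1 := wd_le W G hs ht hs0 ht0 hζ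
  have h2 : ((Module.finrank (IntermediateField.adjoin k {s / t}) (Submodule.span (IntermediateField.adjoin k {s / t})
    (secL W 1 : Set K)) + h0 (W * G⁻¹) 1 : ℕ) : ℝ) ≤ (h0 W 1 : ℝ) := by exact_mod_cast h1
  push_cast at h2
  linarith

/-- the lower bound for every divisor, in the form of the hypothesis `hLB` of `H20.AB.as_of` -/
theorem hLB [CharZero k] (hX : IsVar X) (hg : ∃ g, Gen X g) (hA : ∃ A : Cart X, Ample A) (hY : IsVar Y) (hgY : ∃ g, Gen Y g)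
    (hO : Ov X Y π ψ) (hamp : ∀ D, Ample D → Ample (ψ D)) {G : Cart X} {s t : K}
    (hs : Sec G 1 s) (ht : Sec G 1 t) (hs0 : s ≠ 0) (ht0 : t ≠ 0) (hζ : Transcendental k (s / t)) (hc : Cop G s t)
    (hF : IntermediateField.adjoin k {s / t} ≤ F)
    [FiniteDimensional (IntermediateField.adjoin k {s / t}) (IntermediateField.extendScalars hF)] (V : Cart X) :
    h0 V 1 ≤ h0 (V * G⁻¹) 1 +
      Module.finrank (IntermediateField.adjoin k {s / t}) (IntermediateField.extendScalars hF) * h0 (ψ V) 1 := by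
  obtain ⟨A, hA⟩ := hA
  have : Module.Finite k (secL V 1) := fd hX hg hA V
  have : Module.Finite k (secL (V * G⁻¹) 1) := fd hX hg hA _
  have : Module.Finite F (secL (ψ V) 1) := fd hY hgY (hamp A hA) _
  have h1 := wd_ge V G hs ht hs0 ht0 hζ hc
  have h2 := span_le_mul hF (secL (ψ V) 1) (secL V 1 : Set K) (fun a ha => sec_psi hO ha)
  have h3 : h0 (ψ V) 1 = Module.finrank F (secL (ψ V) 1) := rfl
  rw [← h3] at h2
  omega

/-- **(AS)** on `Y` from the data on `X` -/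
theorem as_X [CharZero k] [T0Space Y.P] (hX : IsVar X) (hg : ∃ g, Gen X g) (hY : IsVar Y) (hgY : ∃ g, Gen Y g)
    (htr : Algebra.trdeg F K = 2) (hO : Ov X Y π ψ) (hamp : ∀ D, Ample D → Ample (ψ D)) {G : Cart X} {s t : K}
    (hs : Sec G 1 s) (ht : Sec G 1 t) (hs0 : s ≠ 0) (ht0 : t ≠ 0) (hζ : Transcendental k (s / t)) (hc : Cop G s t)
    (hF : IntermediateField.adjoin k {s / t} ≤ F)
    [FiniteDimensional (IntermediateField.adjoin k {s / t}) (IntermediateField.extendScalars hF)]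
    {T : Cart X → Cart X → Cart X → ℝ} {l : Cart X → ℝ} {c : ℝ} (hr : RR T l c)
    {A W : Cart X} (hAW : ∀ i : ℕ, Ample (A * W ^ i)) (h1 : T W W G = 0) (h2 : T W G G ≤ 0) {e : ℝ}
    (he : e = Module.finrank (IntermediateField.adjoin k {s / t}) (IntermediateField.extendScalars hF))
    {D : Cart Y} {n : ℕ} (hn : 1 ≤ n) (hD : ∀ V : Cart Y, h0 (V * D ^ n) 1 = h0 V 1)
    {k' K' : Type} [Field k'] [Field K'] [Algebra k' K'] [CharZero k']
    {C : Mod k' K'} {φ : Cart Y →* Cart C} (hC : Cut Y (ψ A) C φ) :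
    (dg (φ (ψ A)) : ℝ) = T A A G / e ∧ (dg (φ (ψ W)) : ℝ) = T A W G / e ∧ dg (φ D) = 0 ∧ ∃ M : ℕ, 1 ≤ M ∧ ∀ j : ℕ,
      ∃ m₀ : ℕ, ∀ m ≥ m₀,
        (h0 (D * (ψ A) ^ m) 1 : ℝ) + j * M * m * dg (φ (ψ W)) ≤ h0 (D * ((ψ W) ^ (j * M) * (ψ A) ^ m)) 1 := by
  have hcF : CharZero F := inferInstance
  have he0 : 0 < e := by
    rw [he]
    exact_mod_cast Module.finrank_pos
  have hA : Ample A := by simpa using hAW 0
  have hub : ∀ V : Cart X, Ample V → ∃ C : ℝ, ∀ n : ℕ, e * h0 (ψ (V ^ n)) 1 ≤ (n : ℝ) ^ 2 / 2 * T V V G + C * (n + 1) := by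
    intro V hV
    rw [he]
    exact ub hX hg hY hgY hO hF hr (wd_ub hX hg ⟨A, hA⟩ hs ht hs0 ht0 hζ) hV
  have h3 := asy_tw hY hgY htr (A := ψ A) (W := ψ W) (D := D)
    (fun i => by rw [← map_pow, ← map_mul]; exact hamp _ (hAW i)) hn hD hC
    (fun i => hub_X hr he0 hub hAW h1 i)
    (fun i => hlb_X hY hgY hO hamp hF hr (wd_lb hX hg ⟨A, hA⟩ hs ht hs0 ht0 hζ hc) hAW h1 h2 he i)
  refine ⟨?_, h3.2⟩
  rw [h3.1]
  field_simp

end Pool.Agent.H43.AS
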