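import Pool.Agent.H43.AS.Wd
import Pool.Agent.H4.YB.Def
import Pool.Agent.H24.VP.Alg
import Pool.Agent.H24.TK.Fin

/-!
# [H43 AS Nm] ABUNDANCE (MP_e49dc9_ag): the lower bound for the sections on `Y`

`X` with the theorem of Riemann-Roch (`RR T l c`), `s t` sections of `G` without common zeros in codimension one, `F₀ ≤ F ≤ K`, `[F : F₀] = e`, `Y` a model over `F`
above `X` (`Ov X Y π ψ`).  `lb`: for `V` ample `t² / 2 * T V V G - t / 2 * T V G G - B ≤ e * h0 (ψ (V ^ t))` for `t ≥ t₀`.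
`hlb_X`: the same for `V = A * W ^ i`, `T W W G = 0`, `T W G G ≤ 0`, in the form of the hypothesis `hlb` of `H47.YP.asy`.
`hub_X`: from the upper bound of `H4.YB.ub` the hypothesis `hub` of `H47.YP.asy`.
-/

set_option autoImplicit false

namespace Pool.Agent.H43.AS

open Pool.Agent.H54.RV Pool.Agent.H83.TU Pool.Agent.H83.TK Pool.Agent.H24.TK Pool.Agent.H24.VP Pool.Agent.H4.YB

variable {k K : Type} [Field k] [Field K] [Algebra k K] {X : Mod k K} {F : IntermediateField k K} {Y : Mod F K}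
  {π : Y.P → X.P} {ψ : Cart X →* Cart Y}

theorem sec_psi (hO : Ov X Y π ψ) {D : Cart X} {n : ℕ} {a : K} (h : Sec D n a) : Sec (ψ D) n a := fun y => by
  rw [hO.eq]
  exact hO.le y _ (h (π y))

/-- the dimension over the small field of a span inside an `F`-subspace -/
theorem span_le_mul {F₀ : IntermediateField k K} (hF : F₀ ≤ F) [FiniteDimensional F₀ (IntermediateField.extendScalars hF)]
    (L : Submodule F K) [Module.Finite F L] (S : Set K) (hS : S ⊆ (L : Set K)) :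
    Module.finrank F₀ (Submodule.span F₀ S) ≤ Module.finrank F₀ (IntermediateField.extendScalars hF) * Module.finrank F L := by
  classical
  let f := Module.finBasis F L
  set m := Module.finrank F L with hm
  let Ψ : (Fin m → IntermediateField.extendScalars hF) →ₗ[F₀] K :=
    ∑ i, (LinearMap.mulRight F₀ ((f i : L) : K)).comp ((IsScalarTower.toAlgHom F₀ (IntermediateField.extendScalars hF) K).toLinearMap.comp
      (LinearMap.proj i))
  have hΨ : ∀ α, Ψ α = ∑ i, (α i : K) * ((f i : L) : K) := by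
    intro α
    simp only [Ψ, LinearMap.sum_apply]
    rfl
  have hr : Submodule.span F₀ S ≤ LinearMap.range Ψ := by
    refine Submodule.span_le.2 fun a ha => ?_
    have h1 : a = ∑ i, f.repr ⟨a, hS ha⟩ i • ((f i : L) : K) := rep L f (hS ha)
    refine ⟨fun i => ⟨(f.repr ⟨a, hS ha⟩ i : K), (f.repr ⟨a, hS ha⟩ i).2⟩, ?_⟩
    rw [hΨ]
    exact h1.symm
  have h2 : Module.finrank F₀ (LinearMap.range Ψ) ≤ Module.finrank F₀ (Fin m → IntermediateField.extendScalars hF) :=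
    LinearMap.finrank_range_le Ψ
  have h3 : Module.finrank F₀ (Fin m → IntermediateField.extendScalars hF) =
      m * Module.finrank F₀ (IntermediateField.extendScalars hF) := by
    rw [Module.finrank_pi_fintype]
    simp
  have h4 := Submodule.finrank_mono hr
  rw [mul_comm]
  omega

/-- the difference of the Hilbert polynomials -/
theorem chi_diff {T : Cart X → Cart X → Cart X → ℝ} {l : Cart X → ℝ} {c : ℝ} (hr : RR T l c) (V G : Cart X) (n : ℕ) :
    chi T l c (V ^ n) - chi T l c (V ^ n * G⁻¹) =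
      (n : ℝ) ^ 2 / 2 * T V V G - n / 2 * T V G G + (T G G G / 6 + l G) := by
  rw [hr.chi_sub]
  unfold chS
  rw [hr.tri.pow, hr.tri.pow2, hr.tri.pow]
  ring

/-- the lower bound -/
theorem lb [CharZero k] (hY : IsVar Y) (hgY : ∃ g, Gen Y g) (hO : Ov X Y π ψ)
    (hamp : ∀ D, Ample D → Ample (ψ D))
    {F₀ : IntermediateField k K} (hF : F₀ ≤ F) [FiniteDimensional F₀ (IntermediateField.extendScalars hF)]
    {T : Cart X → Cart X → Cart X → ℝ} {l : Cart X → ℝ} {c : ℝ} (hr : RR T l c) {G : Cart X}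
    (hwd : ∀ W : Cart X, (h0 W 1 : ℝ) - h0 (W * G⁻¹) 1 ≤ Module.finrank F₀ (Submodule.span F₀ (secL W 1 : Set K)))
    {V : Cart X} (hV : Ample V) :
    ∃ (B : ℝ) (t₀ : ℕ), ∀ t ≥ t₀, (t : ℝ) ^ 2 / 2 * T V V G - t / 2 * T V G G - B ≤
      (Module.finrank F₀ (IntermediateField.extendScalars hF) : ℝ) * h0 (ψ (V ^ t)) 1 := by
  obtain ⟨n₁, h1⟩ := hr.ev 1 V hV
  obtain ⟨n₂, h2⟩ := hr.ev G⁻¹ V hV
  refine ⟨-(T G G G / 6 + l G), max n₁ n₂, fun t ht => ?_⟩
  have h3 := h1 t ((le_max_left _ _).trans ht)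
  have h4 := h2 t ((le_max_right _ _).trans ht)
  rw [one_mul] at h3
  rw [mul_comm] at h4
  have h5 := chi_diff hr V G t
  have h6 := hwd (V ^ t)
  have : Module.Finite F (secL (ψ (V ^ t)) 1) := fd hY hgY (hamp V hV) _
  have h7 := span_le_mul hF (secL (ψ (V ^ t)) 1) (secL (V ^ t) 1 : Set K) (fun a ha => sec_psi hO ha)
  have h8 : ((Module.finrank F₀ (Submodule.span F₀ (secL (V ^ t) 1 : Set K)) : ℕ) : ℝ) ≤
      (Module.finrank F₀ (IntermediateField.extendScalars hF) : ℝ) * h0 (ψ (V ^ t)) 1 := by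
    exact_mod_cast h7
  linarith

theorem T_mul {T : Cart X → Cart X → Cart X → ℝ} (hT : Tri T) {A W G : Cart X} (h1 : T W W G = 0) (i : ℕ) :
    T (A * W ^ i) (A * W ^ i) G = T A A G + 2 * i * T A W G := by
  rw [hT.add, hT.add2, hT.add2, hT.pow, hT.pow2, hT.pow, hT.pow2, h1, hT.s12 W A G]
  ring

theorem T_mul2 {T : Cart X → Cart X → Cart X → ℝ} (hT : Tri T) {A W G : Cart X} (h2 : T W G G ≤ 0) (i : ℕ) :
    T (A * W ^ i) G G ≤ T A G G := by
  rw [hT.add, hT.pow]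
  have : (i : ℝ) * T W G G ≤ 0 := mul_nonpos_of_nonneg_of_nonpos (Nat.cast_nonneg i) h2
  linarith

/-- the hypothesis `hlb` of `H47.YP.asy` -/
theorem hlb_X [CharZero k] (hY : IsVar Y) (hgY : ∃ g, Gen Y g) (hO : Ov X Y π ψ)
    (hamp : ∀ D, Ample D → Ample (ψ D))
    {F₀ : IntermediateField k K} (hF : F₀ ≤ F) [FiniteDimensional F₀ (IntermediateField.extendScalars hF)]
    {T : Cart X → Cart X → Cart X → ℝ} {l : Cart X → ℝ} {c : ℝ} (hr : RR T l c) {G : Cart X}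
    (hwd : ∀ W : Cart X, (h0 W 1 : ℝ) - h0 (W * G⁻¹) 1 ≤ Module.finrank F₀ (Submodule.span F₀ (secL W 1 : Set K)))
    {A W : Cart X} (hAW : ∀ i : ℕ, Ample (A * W ^ i)) (h1 : T W W G = 0) (h2 : T W G G ≤ 0) {e : ℝ}
    (he : e = Module.finrank F₀ (IntermediateField.extendScalars hF)) (i : ℕ) :
    ∃ (B : ℝ) (t₀ : ℕ), ∀ t ≥ t₀, (T A A G / (2 * e) + i * (T A W G / e)) * (t : ℝ) ^ 2 - T A G G / (2 * e) * t - B ≤
      (h0 ((ψ A * ψ W ^ i) ^ t) 1 : ℝ) := by
  have he0 : 0 < e := by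
    rw [he]
    exact_mod_cast Module.finrank_pos
  obtain ⟨B, t₀, h3⟩ := lb hY hgY hO hamp hF hr hwd (hAW i)
  refine ⟨B / e, t₀, fun t ht => ?_⟩
  have h4 := h3 t ht
  have h6 : (t : ℝ) / 2 * T (A * W ^ i) G G ≤ t / 2 * T A G G :=
    mul_le_mul_of_nonneg_left (T_mul2 hr.tri h2 i) (by positivity)
  rw [T_mul hr.tri h1 i, ← he, map_pow, map_mul, map_pow] at h4
  have h5 : (T A A G / (2 * e) + i * (T A W G / e)) * (t : ℝ) ^ 2 - T A G G / (2 * e) * t - B / e =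
      ((t : ℝ) ^ 2 / 2 * (T A A G + 2 * i * T A W G) - t / 2 * T A G G - B) / e := by
    field_simp
  rw [h5, div_le_iff₀ he0]
  linarith

/-- the hypothesis `hub` of `H47.YP.asy` -/
theorem hub_X {T : Cart X → Cart X → Cart X → ℝ} {l : Cart X → ℝ} {c : ℝ} (hr : RR T l c) {G : Cart X} {e : ℝ} (he0 : 0 < e)
    (hub : ∀ V : Cart X, Ample V → ∃ C : ℝ, ∀ n : ℕ, e * h0 (ψ (V ^ n)) 1 ≤ (n : ℝ) ^ 2 / 2 * T V V G + C * (n + 1))
    {A W : Cart X} (hAW : ∀ i : ℕ, Ample (A * W ^ i)) (h1 : T W W G = 0) (i : ℕ) :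
    ∃ (B : ℝ) (t₀ : ℕ), ∀ t ≥ t₀, (h0 ((ψ A * ψ W ^ i) ^ t) 1 : ℝ) ≤
      (T A A G / (2 * e) + i * (T A W G / e)) * (t : ℝ) ^ 2 + B * t + B := by
  obtain ⟨C, hC⟩ := hub _ (hAW i)
  refine ⟨C / e, 0, fun t _ => ?_⟩
  have h4 := hC t
  rw [T_mul hr.tri h1 i, map_pow, map_mul, map_pow] at h4
  have h5 : (T A A G / (2 * e) + i * (T A W G / e)) * (t : ℝ) ^ 2 + C / e * t + C / e =
      ((t : ℝ) ^ 2 / 2 * (T A A G + 2 * i * T A W G) + C * (t + 1)) / e := by
    field_simp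
    ring
  rw [h5, le_div_iff₀ he0]
  linarith

end Pool.Agent.H43.AS
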